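import Mathlib
import Pool.Agent.H45.TrGame

open Finset

namespace Pool.Agent.Results.MP_2bafa0_co.Four

section
variable {N : Type} [Fintype N] [DecidableEq N]

/-- Simple games. -/
def Simple (W : Set (Finset N)) : Prop :=
  ∅ ∉ W ∧ univ ∈ W ∧ ∀ S T, S ∈ W → S ⊆ T → T ∈ W

/-- Desirability `i ≽ j`. -/
def Des (W : Set (Finset N)) (i j : N) : Prop :=
  ∀ S : Finset N, i ∉ S → j ∉ S → insert j S ∈ W → insert i S ∈ W

/-- The relation `≽` is total. -/
def Complete (W : Set (Finset N)) : Prop := ∀ i j, Des W i j ∨ Des W j i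

/-- There are exactly `t` types of voters. -/
def Types (W : Set (Finset N)) (t : ℕ) : Prop :=
  ∃ τ : N → Fin t, τ.Surjective ∧ ∀ i j, τ i = τ j ↔ Des W i j ∧ Des W j i

/-- `k`-trade robustness. -/
def Robust (W : Set (Finset N)) (k : ℕ) : Prop :=
  ∀ j, 1 ≤ j → j ≤ k → ∀ X Y : Fin j → Finset N, (∀ p, #{i | p ∈ X i} = #{i | p ∈ Y i}) →
    (∀ i, X i ∈ W) → ∃ i, Y i ∈ W

end

/-- `t` is unbounded. -/
def Unbounded (t : ℕ) : Prop := ∀ k, 2 ≤ k → ∃ (N : Type) (_ : Fintype N) (_ : DecidableEq N)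
  (W : Set (Finset N)), Simple W ∧ Complete W ∧ Types W t ∧ Robust W k ∧ ¬Robust W (k + 1)

lemma dc {N R : Type} [Fintype N] [DecidableEq N] [Semiring R] {j : ℕ} {X Y : Fin j → Finset N}
    (h : ∀ p, #{i | p ∈ X i} = #{i | p ∈ Y i}) (f : N → R) :
    ∑ i, ∑ p ∈ X i, f p = ∑ i, ∑ p ∈ Y i, f p := by
  have : ∀ X : Fin j → Finset N, ∑ i, ∑ p ∈ X i, f p = ∑ p, #{i | p ∈ X i} • f p := fun X => by
    rw [sum_congr rfl fun i _ => (sum_ite_mem_eq (X i) f).symm, sum_comm]
    simp [← sum_filter]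
  simp only [this, h]

def Ex (t k : ℕ) : Prop := ∃ (N : Type) (_ : Fintype N) (_ : DecidableEq N) (W : Set (Finset N)),
  (Simple W ∧ Complete W ∧ Types W t ∧ Robust W k ∧ ¬Robust W (k + 1)) ∧ ∀ i, {i} ∉ W

lemma step {t k : ℕ} (h : Ex t k) : Ex (t + 1) k := by
  obtain ⟨N, _, _, W, ⟨⟨s1, s2, s3⟩, c, ⟨τ, τ1, τ2⟩, r, r'⟩, p⟩ := h
  let e : Finset (Option N) → Finset N := fun S => {v | some v ∉ S}
  let ι : Finset N → Finset (Option N) := fun A => {o | ∀ v, o = some v → v ∉ A}
  have ei : ∀ A, e (ι A) = A := fun A => by ext; simp [e, ι]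
  let W' : Set (Finset (Option N)) := {S | none ∈ S ∧ e S ∉ W}
  have d1 : ∀ j, Des W' none j := fun j S a b q => by
    rcases mem_insert.1 q.1 with rfl | h
    exacts [q, absurd h a]
  have d2 : ∀ i, ¬Des W' (some i) none := fun i q => by
    have := (q ((ι {i}).erase none) (by simp [ι]) (by simp) ⟨by simp, by
      convert p i
      ext; simp [e, ι]⟩).1
    simp at this
  have d3 : ∀ i j, Des W' (some i) (some j) ↔ Des W i j := fun i j => by
    rcases eq_or_ne i j with rfl | n
    · exact iff_of_true (fun _ _ _ => id) fun _ _ _ => id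
    constructor
    · intro q A a b w
      by_contra z
      refine (q (ι (insert i (insert j A))) (by simp [ι]) (by simp [ι]) ⟨by simp [ι], ?_⟩).2 ?_
      · convert z
        ext; simp only [e, ι, mem_filter, mem_insert, mem_univ, Option.some.injEq]; grind
      · convert w
        ext; simp only [e, ι, mem_filter, mem_insert, mem_univ, Option.some.injEq]; grind
    · intro q S a b w
      refine ⟨by simpa using w.1, fun z => w.2 ?_⟩
      convert q (((e S).erase i).erase j) (by simp) (by simp) (by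
        convert z
        ext; simp only [e, mem_filter, mem_insert, mem_erase, mem_univ, Option.some.injEq]; grind)
      ext; simp only [e, mem_filter, mem_insert, mem_erase, mem_univ, Option.some.injEq]; grind
  have cc : ∀ {j} {P Q : Fin j → Prop} [DecidablePred P] [DecidablePred Q],
      #{i | P i} = #{i | Q i} → #{i | ¬P i} = #{i | ¬Q i} := fun {j P Q _ _} h => by
    have a : #{i | P i} + #{i | ¬P i} = #(univ : Finset (Fin j)) := by
      convert card_filter_add_card_filter_not (s := univ) P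
    have b : #{i | Q i} + #{i | ¬Q i} = #(univ : Finset (Fin j)) := by
      convert card_filter_add_card_filter_not (s := univ) Q
    omega
  refine ⟨Option N, inferInstance, inferInstance, W', ⟨⟨fun q => by simpa using q.1,
    ⟨by simp, by simpa [e] using s1⟩, fun S T a b => ⟨b a.1, fun q => a.2 (s3 _ _ q fun v => ?_)⟩⟩,
    ?_, ⟨fun o => o.elim 0 fun v => (τ v).succ, fun x => ?_, ?_⟩, fun j a b X Y h w => ?_,
    fun q => r' fun j a b X Y h w => ?_⟩, ?_⟩
  · simpa [e] using mt (@b (some v))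
  · rintro (_ | i) (_ | j)
    exacts [.inl (d1 _), .inl (d1 _), .inr (d1 _), by rw [d3, d3]; exact c i j]
  · refine x.cases ⟨none, rfl⟩ fun y => ?_
    obtain ⟨v, rfl⟩ := τ1 y
    exact ⟨some v, rfl⟩
  · rintro (_ | i) (_ | j)
    · simp [d1]
    · simp [d2, (Fin.succ_ne_zero _).symm]
    · simp [d2]
    · simp [d3, τ2]
  · by_contra! z
    have n : ∀ i, none ∈ Y i := by
      have := h none
      rw [filter_true_of_mem fun i _ => (w i).1] at this
      simpa using (card_filter_eq_iff.1 this.symm)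
    obtain ⟨i, q⟩ := r j a b (fun i => e (Y i)) (fun i => e (X i))
      (fun v => by simpa [e] using cc (h (some v)).symm) fun i => by_contra fun q => z i ⟨n i, q⟩
    exact (w i).2 q
  · by_contra! z
    obtain ⟨i, q⟩ := q j a b (fun i => ι (Y i)) (fun i => ι (X i)) (by
      rintro (_ | v)
      · simp [ι]
      · simpa [ι] using cc (h v).symm) fun i => ⟨by simp [ι], by rw [ei]; exact z i⟩
    exact q.2 (by rw [ei]; exact w i)
  · rintro (_ | i) q
    · exact q.2 (by simpa [e] using s2)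
    · simpa using q.1

lemma plane {b x y z u : ℤ} (b1 : 1 ≤ b) (x0 : 0 ≤ x) (y0 : 0 ≤ y) (z0 : 0 ≤ z) (u0 : 0 ≤ u)
    (z1 : z ≤ b + 2) (h : (b * b + b + 1) * x + (b * b + 3 * b + 1) * y + (b * b + b - 1) * z +
      (b * b + 3 * b + 3) * u = (b + 1) * (b * b + 3 * b + 1)) : x = 0 ∨ x = 1 ∨ x = b + 2 := by
  rcases b1.eq_or_lt with rfl | b2
  · obtain rfl | rfl : u = 0 ∨ u = 1 := by omega
    · obtain rfl | rfl | rfl : y = 0 ∨ y = 1 ∨ y = 2 := by omega
      all_goals omega
    · omega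
  obtain ⟨s, hs⟩ : ∃ s, s = b + 3 - (x + y + z + u) := ⟨_, rfl⟩
  have e : x - z + (2 * b + 1) * (y + u) + 2 * u = s * (b * b + b) + b + 1 := by
    rw [hs]; linarith
  have m : 0 ≤ b * (y + u) := by positivity
  have m2 : 2 * b ≤ b * b := by nlinarith
  obtain c | rfl | rfl | rfl | c : s ≤ -1 ∨ s = 0 ∨ s = 1 ∨ s = 2 ∨ 3 ≤ s := by omega
  · have : s * (b * b + b) ≤ -1 * (b * b + b) := by gcongr
    have : (2 * b + 1) * (y + u) = 2 * (b * (y + u)) + y + u := by ring
    omega
  · obtain c | c | c : y + u = 0 ∨ y + u = 1 ∨ 2 ≤ y + u := by omega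
    · rw [c] at e; omega
    · rw [c] at e; omega
    · have : b * 2 ≤ b * (y + u) := by gcongr
      have : (2 * b + 1) * (y + u) = 2 * (b * (y + u)) + y + u := by ring
      omega
  · obtain ⟨c, q⟩ := Int.even_mul_succ_self b
    have : (2 * b + 1) * (y + u) = 2 * (b * (y + u)) + y + u := by ring
    have : b * (b + 1) = b * b + b := by ring
    omega
  · by_contra
    have : (2 * b + 1) * (y + u) ≤ (2 * b + 1) * (b - 1) := by gcongr; omega
    have : (2 * b + 1) * (b - 1) = 2 * (b * b) - b - 1 := by ring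
    omega
  · have : 3 * (b * b + b) ≤ s * (b * b + b) := by gcongr
    have : b * (y + u) ≤ b * b := by gcongr; omega
    have : (2 * b + 1) * (y + u) = 2 * (b * (y + u)) + y + u := by ring
    omega

def cnt {n : ℕ} (S : Finset (Fin 4 × Fin n)) (k : Fin 4) : ℤ := ∑ v ∈ S, if v.1 = k then 1 else 0

def ω (b : ℤ) : Fin 4 → ℤ := ![b * b + b + 1, b * b + 3 * b + 1, b * b + b - 1, b * b + 3 * b + 3]

lemma wt {n : ℕ} (S : Finset (Fin 4 × Fin n)) (g : Fin 4 → ℤ) :
    ∑ v ∈ S, g v.1 = g 0 * cnt S 0 + g 1 * cnt S 1 + g 2 * cnt S 2 + g 3 * cnt S 3 := by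
  simp only [cnt, mul_sum, ← sum_add_distrib]
  refine sum_congr rfl fun ⟨a, _⟩ _ => ?_
  fin_cases a <;> simp

open Classical in
noncomputable def mk {n : ℕ} (P : Fin 4 → Fin n → Prop) : Finset (Fin 4 × Fin n) := {v | P v.1 v.2}

lemma mem_mk {n : ℕ} {P : Fin 4 → Fin n → Prop} {v} : v ∈ mk P ↔ P v.1 v.2 := by simp [mk]

open Classical in
lemma cntU {n : ℕ} (P : Fin 4 → Fin n → Prop) (k : Fin 4) :
    cnt (mk P) k = ∑ r, if P k r then 1 else 0 := by
  rw [cnt, mk, sum_filter, Fintype.sum_prod_type_right]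
  refine sum_congr rfl fun r _ => ?_
  rw [sum_eq_single k (fun a _ h => by simp [h]) (by simp)]
  simp

lemma base (β : ℕ) : Ex 4 (β + 2) := by
  let b : ℤ := β + 1
  have b1 : 1 ≤ b := by omega
  have bb : b ≤ b * b := by nlinarith
  let q : ℤ := (b + 1) * (b * b + 3 * b + 1)
  let w : Finset (Fin 4 × Fin (β + 3)) → ℤ := fun S => ∑ v ∈ S, ω b v.1
  let W : Set (Finset (Fin 4 × Fin (β + 3))) := {S | q < w S ∨ w S = q ∧ cnt S 0 ≠ 1}
  have w0 : ∀ a, 0 < ω b a := fun a => by fin_cases a <;> simp [ω] <;> omega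
  have w1 : ∀ a, ω b a < q := fun a => by fin_cases a <;> simp [ω, q] <;> nlinarith
  have wi : ∀ a c, ω b a = ω b c → a = c := fun a c => by
    fin_cases a <;> fin_cases c <;> simp [ω] <;> omega
  have c0 : ∀ (S : Finset (Fin 4 × Fin (β + 3))) k, 0 ≤ cnt S k := fun S k =>
    sum_nonneg fun _ _ => by positivity
  have c1 : ∀ (S : Finset (Fin 4 × Fin (β + 3))) k, cnt S k ≤ b + 2 := fun S k => by
    refine (sum_le_sum_of_subset_of_nonneg (subset_univ S) fun _ _ _ => by positivity).trans ?_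
    have := cntU (n := β + 3) (fun _ _ => True) k
    simp only [mk, filter_true, cnt] at this
    rw [this]; simp [b]; omega
  have D : ∀ i j, ω b j.1 < ω b i.1 ∨ i.1 = j.1 → Des W i j := fun i j h S x y z => by
    simp only [W, w, cnt, Set.mem_ofPred, sum_insert x, sum_insert y] at z ⊢
    rcases h with h | h
    · omega
    · rwa [h]
  have D' : ∀ i j, ω b j.1 < ω b i.1 → ¬Des W j i := fun i j h z => by
    have n : i.1 ≠ j.1 := fun e => by simp [e] at h
    have j3 : j.1 ≠ 3 := fun e => by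
      rw [e] at h; revert h; generalize i.1 = a; fin_cases a <;> simp [ω] <;> omega
    obtain ⟨S, x, y, u⟩ : ∃ S : Finset (Fin 4 × Fin (β + 3)), i ∉ S ∧ j ∈ S ∧
        ∀ k, cnt S k = ![1, 1, b + 1, 0] k := by
      obtain ⟨i, r⟩ := i
      obtain ⟨j, s⟩ := j
      obtain ⟨r', hr⟩ := exists_ne r
      obtain ⟨s', hs⟩ := exists_ne s
      refine ⟨mk fun a t => (a = 0 ∨ a = 1) ∧ t = (if a = j then s else r') ∨
        a = 2 ∧ t ≠ (if a = j then s' else r), ?_, ?_, fun k => ?_⟩
      · simp only at n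
        simp [mem_mk, n, hr.symm]
      · simp only at j3
        fin_cases j <;> simp_all [mem_mk, hs.symm]
      · rw [cntU]
        fin_cases k <;> simp [b, sum_ite, filter_ne']
        omega
    have e : w S = q := by
      simp only [w, wt, u]; simp [ω, q]; ring
    have := z (S.erase j) (by simp) (by simp [x]) (.inl (by
      have := add_sum_erase S (fun v => ω b v.1) y
      simp only [w, sum_insert (show i ∉ S.erase j by simp [x])] at e ⊢
      omega))
    rw [insert_erase y] at this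
    simp [W, e, u] at this
  refine ⟨Fin 4 × Fin (β + 3), inferInstance, inferInstance, W, ⟨⟨?_, .inl ?_, fun S T x y => ?_⟩,
    fun i j => ?_, ⟨Prod.fst, Prod.fst_surjective, fun i j => ⟨fun h => ⟨D _ _ (.inr h),
      D _ _ (.inr h.symm)⟩, fun h => wi _ _ ?_⟩⟩, fun j x y X Y h u => ?_, fun h => ?_⟩,
    fun i => ?_⟩
  · have := w0 0
    have := w1 0
    simp [W, w]; omega
  · simp only [w, Fintype.sum_prod_type, sum_const, Fin.sum_univ_four]
    simp [ω, q, b]; nlinarith
  · have m : ∀ k, cnt S k ≤ cnt T k := fun k =>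
      sum_le_sum_of_subset_of_nonneg y fun _ _ _ => by positivity
    have m1 := mul_le_mul_of_nonneg_left (m 1) (w0 1).le
    have m2 := mul_le_mul_of_nonneg_left (m 2) (w0 2).le
    have m3 := mul_le_mul_of_nonneg_left (m 3) (w0 3).le
    simp only [W, w, wt, Set.mem_ofPred] at x ⊢
    rcases (m 0).eq_or_lt with e | e
    · rw [e] at x; omega
    · have := mul_lt_mul_of_pos_left e (w0 0)
      omega
  · rcases lt_trichotomy (ω b i.1) (ω b j.1) with h | h | h
    exacts [.inr (D _ _ (.inl h)), .inl (D _ _ (.inr (wi _ _ h))), .inl (D _ _ (.inl h))]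
  · rcases lt_trichotomy (ω b i.1) (ω b j.1) with e | e | e
    exacts [absurd h.1 (D' _ _ e), e, absurd h.2 (D' _ _ e)]
  · by_contra! z
    have z : ∀ i, w (Y i) ≤ q ∧ (w (Y i) = q → cnt (Y i) 0 = 1) := fun i => by
      have := z i
      simp only [W, Set.mem_ofPred] at this
      omega
    have u' : ∀ i, q ≤ w (X i) := fun i => by rcases u i with e | e <;> omega
    have e := (sum_eq_sum_iff_of_le fun i (_ : i ∈ univ) => (z i).1.trans (u' i)).1
      (dc h fun v => ω b v.1).symm
    have e' : ∑ i, cnt (X i) 0 = ∑ i, cnt (Y i) 0 := dc h _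
    have f : ∀ i, w (X i) = q ∧ w (Y i) = q := fun i => by
      have := e i (mem_univ _)
      have := z i
      have := u' i
      omega
    rw [sum_congr rfl fun i _ => (z i).2 (f i).2] at e'
    have : b + 2 ∣ ∑ i, cnt (X i) 0 := dvd_sum fun i _ => by
      have g := (f i).1
      simp only [w, wt] at g
      rcases plane b1 (c0 _ 0) (c0 _ 1) (c0 _ 2) (c0 _ 3) (c1 _ 2) g with p | p | p
      · simp [p]
      · rcases u i with r | r
        exacts [absurd (f i).1 r.ne', absurd p r.2]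
      · simp [p]
    rw [e'] at this
    have := Int.le_of_dvd (by simpa using Nat.lt_of_succ_le x) this
    simp [b] at this
    omega
  · obtain ⟨i, p⟩ := h (β + 3) (by omega) le_rfl
      (fun i => mk fun a r => a = 0 ∧ i = 1 ∨ a = 1 ∧ i = 0 ∧ r ≠ 0 ∨
        a = 2 ∧ (i = 1 ∧ r = 0 ∨ i ≠ 0 ∧ i ≠ 1) ∨ a = 3 ∧ i ≠ 0 ∧ i ≠ 1 ∧ r = i)
      (fun i => mk fun a r => a = 0 ∧ r = i ∨ a = 1 ∧ i ≠ 0 ∧ r = i ∨
        a = 2 ∧ i ≠ 0 ∧ r ≠ i ∨ a = 3 ∧ i = 0 ∧ r ≠ 0 ∧ r ≠ 1)
      (by
        rintro ⟨a, r⟩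
        have o : (0 : Fin (β + 3)) ≠ 1 := by simp
        simp only [mem_mk]
        fin_cases a
        · exact card_equiv (.swap 1 r) fun i => by simp [Equiv.swap_apply_def]; grind
        · exact card_equiv (.swap 0 r) fun i => by simp [Equiv.swap_apply_def]; grind
        · by_cases e : r = 0
          · exact card_equiv (.refl _) fun i => by simp; grind
          · exact card_equiv (.swap 1 r) fun i => by simp [Equiv.swap_apply_def]; grind
        · exact card_equiv (.swap 0 r) fun i => by simp [Equiv.swap_apply_def]; grind) fun i => by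
        simp only [W, w, wt, cntU, Set.mem_ofPred]
        refine .inr (i.cases ?_ fun i => i.cases ?_ fun i => ?_) <;>
          simp [ω, q, b, sum_ite, filter_ne', Fin.succ_succ_ne_one]
        exacts [by ring, ⟨by ring, by omega⟩, by ring]
    simp only [W, w, wt, cntU, Set.mem_ofPred] at p
    have o : #{x : Fin (β + 3) | ¬x = 0 ∧ ¬x = 1} = β + 1 := by
      rw [← filter_filter, filter_ne', filter_ne', card_erase_of_mem (by simp)]
      simp
    revert p
    refine i.cases ?_ fun i => ?_ <;> simp [ω, q, b, sum_ite, filter_ne', o] <;> linarith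
  · have := w1 i.1
    simp [W, w]; omega

theorem result (t : ℕ) : Unbounded t ↔ 4 ≤ t := by
  constructor
  · intro h
    by_contra! c
    obtain ⟨N, _, _, W, s, -, ⟨τ, -, e⟩, r, r'⟩ := h 3 (by simp)
    obtain ⟨w, q, -, u⟩ := H45.TrGame.three W s.2.2 (fun v => (τ v).castLE (by omega))
      (fun i j h => ((e i j).1 (Fin.castLE_injective _ h)).1) r
    refine r' fun j a _ X Y h x => by_contra fun z => ?_
    have : Nonempty (Fin j) := ⟨⟨0, a⟩⟩
    push Not at z
    exact (sum_lt_sum_of_nonempty univ_nonempty fun i _ =>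
      (not_le.1 (mt (u _).2 (z i))).trans_le ((u _).1 (x i))).ne' (dc h w)
  · intro h k hk
    obtain ⟨β, rfl⟩ := Nat.exists_eq_add_of_le' hk
    have : Ex t (β + 2) := Nat.le_induction (base β) (fun _ _ => step) t h
    obtain ⟨N, a, b, W, c, -⟩ := this
    exact ⟨N, a, b, W, c⟩

end Pool.Agent.Results.MP_2bafa0_co.Four
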